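import Mathlib

set_option autoImplicit false

namespace Pool.Agent.Results.MP_071c0d_co.HalfBound

open Finset

/-- The First-Fit colouring of a sequence of edges, listed with the newest edge first: a new
edge gets the least positive integer not used on an earlier edge sharing a vertex with it. -/
noncomputable def ff {W : Type} : List (Sym2 W) → List (Sym2 W × ℕ)
  | [] => []
  | e :: L => (e, sInf {c | 0 < c ∧ ∀ p ∈ ff L, (∃ v, v ∈ p.1 ∧ v ∈ e) → p.2 ≠ c}) :: ff L

/-- the sequence builds a simple graph: no repeated edge and no loop -/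
def Valid {W : Type} (L : List (Sym2 W)) : Prop := L.Nodup ∧ ∀ e ∈ L, ¬ e.IsDiag

/-- the First-Fit coloured graph contains a rainbow copy of `H` -/
def HasRainbow {V W : Type} (H : SimpleGraph V) (L : List (Sym2 W)) : Prop :=
  ∃ (φ : V → W) (c : Sym2 V → ℕ), Function.Injective φ ∧ Set.InjOn c H.edgeSet ∧
    ∀ e ∈ H.edgeSet, (e.map φ, c e) ∈ ff L

theorem grundy {ι W : Type} [DecidableEq ι] (ed : ι → Sym2 W) (col : ι → ℕ) (s : Finset ι)
    (hpos : ∀ i ∈ s, 0 < col i)
    (hp : ∀ i ∈ s, ∀ j ∈ s, (∃ v, v ∈ ed i ∧ v ∈ ed j) → col i = col j → i = j)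
    (hg : ∀ i ∈ s, ∀ c, 0 < c → c < col i → ∃ j ∈ s, (∃ v, v ∈ ed j ∧ v ∈ ed i) ∧ col j = c) :
    ∃ l : List ι, l.Nodup ∧ l.toFinset = s ∧ ff (l.map ed) = l.map fun i => (ed i, col i) := by
  induction s using Finset.induction_on_max_value col with
  | empty => exact ⟨[], by simp, by simp, rfl⟩
  | insert a s ha hm ih =>
    obtain ⟨l, h1, rfl, h3⟩ := ih (fun i hi => hpos i (mem_insert_of_mem hi))
      (fun i hi j hj => hp i (mem_insert_of_mem hi) j (mem_insert_of_mem hj)) (by
        intro i hi c h0 hc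
        obtain ⟨j, hj, g1, g2⟩ := hg i (mem_insert_of_mem hi) c h0 hc
        refine ⟨j, (mem_insert.mp hj).resolve_left ?_, g1, g2⟩
        rintro rfl
        have := hm i hi
        omega)
    refine ⟨a :: l, List.nodup_cons.mpr ⟨by simpa using ha, h1⟩, by simp, ?_⟩
    rw [List.map_cons, ff, h3, List.map_cons]
    congr 2
    refine IsLeast.csInf_eq ⟨⟨hpos a (mem_insert_self _ _), ?_⟩, ?_⟩
    · intro p hp' hv e
      obtain ⟨j, hj, rfl⟩ := List.mem_map.mp hp'
      have hj' := List.mem_toFinset.mpr hj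
      exact ha (hp j (mem_insert_of_mem hj') a (mem_insert_self _ _) hv e ▸ hj')
    · rintro c ⟨h0, hc⟩
      by_contra hlt
      obtain ⟨j, hj, g1, g2⟩ := hg a (mem_insert_self _ _) c h0 (not_le.mp hlt)
      have hj' : j ∈ l.toFinset := (mem_insert.mp hj).resolve_left (by rintro rfl; omega)
      exact hc (ed j, col j) (List.mem_map.mpr ⟨j, List.mem_toFinset.mp hj', rfl⟩) g1 g2

theorem rank {β : Type} [DecidableEq β] (ρ : β → ℕ) (s : Finset β) :
    ∃ c : β → ℕ, Set.InjOn c s ∧ (∀ e ∈ s, 0 < c e ∧ c e ≤ s.card) ∧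
      (∀ x, 0 < x → x ≤ s.card → ∃ g ∈ s, c g = x) ∧ ∀ g ∈ s, ∀ e ∈ s, c g < c e → ρ g ≤ ρ e := by
  induction s using Finset.induction_on_max_value ρ with
  | empty => exact ⟨fun _ => 0, by simp, by simp, fun x h0 h1 => by simp at h1; omega, by simp⟩
  | insert a s ha hm ih =>
    obtain ⟨c, h1, h2, h3, h4⟩ := ih
    have u : ∀ e ∈ s, Function.update c a (s.card + 1) e = c e :=
      fun e he => Function.update_of_ne (by rintro rfl; exact ha he) _ _
    have u0 : Function.update c a (s.card + 1) a = s.card + 1 := Function.update_self _ _ _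
    rw [card_insert_of_notMem ha]
    refine ⟨Function.update c a (s.card + 1), ?_, ?_, ?_, ?_⟩
    · intro x hx y hy e
      simp only [coe_insert, Set.mem_insert_iff, mem_coe] at hx hy
      rcases hx with rfl | hx <;> rcases hy with rfl | hy
      · rfl
      · rw [u0, u y hy] at e; have := h2 y hy; omega
      · rw [u0, u x hx] at e; have := h2 x hx; omega
      · rw [u x hx, u y hy] at e; exact h1 hx hy e
    · intro e he
      rcases mem_insert.mp he with rfl | he
      · rw [u0]; omega
      · rw [u e he]; have := h2 e he; omega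
    · intro x h0 hx
      by_cases e : x = s.card + 1
      · exact ⟨a, mem_insert_self _ _, u0.trans e.symm⟩
      · obtain ⟨g, hg, e⟩ := h3 x h0 (by omega)
        exact ⟨g, mem_insert_of_mem hg, (u g hg).trans e⟩
    · intro g hg e he hlt
      rcases mem_insert.mp hg with eg | hg' <;> rcases mem_insert.mp he with ee | he'
      · rw [eg, ee]
      · rw [eg, u0, u e he'] at hlt; have := h2 e he'; omega
      · exact ee ▸ hm g hg'
      · rw [u g hg', u e he'] at hlt; exact h4 g hg' e he' hlt

theorem build {V : Type} [Fintype V] [DecidableEq V] (H : SimpleGraph V) [DecidableRel H.Adj]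
    (C : Finset V) (asg : Sym2 V → V) (ha : ∀ e ∈ H.edgeFinset, asg e ∈ e ∧ asg e ∈ C)
    (r : V → ℕ) (hr : Set.InjOn r C) :
    ∃ L : List (Sym2 (V ⊕ V × Sym2 V)), Valid L ∧ HasRainbow H L ∧
      L.length ≤ ∑ e ∈ H.edgeFinset, (1 + (C.filter fun v => r (asg e) < r v).card) := by
  obtain ⟨c, c1, c2, c3, c4⟩ := rank (fun e => r (asg e)) H.edgeFinset
  let P : Finset (V × Sym2 V) :=
    (C ×ˢ H.edgeFinset).filter fun p => r (asg p.2) < r p.1 ∧ p.1 ∉ p.2
  let ed : Sym2 V ⊕ V × Sym2 V → Sym2 (V ⊕ V × Sym2 V) :=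
    Sum.elim (fun e => e.map Sum.inl) fun p => s(Sum.inl p.1, Sum.inr p)
  let base : Sym2 V ⊕ V × Sym2 V → Sym2 V := Sum.elim id Prod.snd
  let ctr : Sym2 V ⊕ V × Sym2 V → V := Sum.elim asg Prod.fst
  have hb : ∀ i ∈ H.edgeFinset.disjSum P, base i ∈ H.edgeFinset ∧ ctr i ∈ C ∧
      r (asg (base i)) ≤ r (ctr i) ∧ Sum.inl (ctr i) ∈ ed i := by
    rintro (e | ⟨v, f⟩) hi
    · have he : e ∈ H.edgeFinset := by simpa using hi
      exact ⟨he, (ha e he).2, le_rfl, Sym2.mem_map.mpr ⟨_, (ha e he).1, rfl⟩⟩
    · have hp : (v, f) ∈ P := by simpa using hi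
      simp only [P, mem_filter, mem_product] at hp
      exact ⟨hp.1.2, hp.1.1, hp.2.1.le, by simp [ed, ctr]⟩
  obtain ⟨l, l1, l2, l3⟩ := grundy ed (fun i => c (base i)) (H.edgeFinset.disjSum P)
    (fun i hi => (c2 _ (hb i hi).1).1) (by
      intro i hi j hj ⟨x, hx, hx'⟩ e
      have e' := c1 (hb i hi).1 (hb j hj).1 e
      rcases i with e1 | ⟨v, f⟩ <;> rcases j with e2 | ⟨v', f'⟩ <;>
        simp only [base, Sum.elim_inl, Sum.elim_inr, id] at e' <;> subst e'
      · rfl
      · have hp : (v', e1) ∈ P := by simpa using hj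
        simp only [P, mem_filter] at hp
        simp only [ed, Sum.elim_inl, Sum.elim_inr, Sym2.mem_map, Sym2.mem_iff] at hx hx'
        obtain ⟨y, hy, rfl⟩ := hx
        simp only [Sum.inl.injEq, reduceCtorEq, or_false] at hx'
        exact absurd (hx' ▸ hy) hp.2.2
      · have hp : (v, f) ∈ P := by simpa using hi
        simp only [P, mem_filter] at hp
        simp only [ed, Sum.elim_inl, Sum.elim_inr, Sym2.mem_map, Sym2.mem_iff] at hx hx'
        obtain ⟨y, hy, rfl⟩ := hx'
        simp only [Sum.inl.injEq, reduceCtorEq, or_false] at hx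
        exact absurd (hx ▸ hy) hp.2.2
      · simp only [ed, Sum.elim_inr, Sym2.mem_iff] at hx hx'
        rcases hx with rfl | rfl <;> simp_all) (by
      intro i hi x h0 hx
      obtain ⟨b1, b2, b3, b4⟩ := hb i hi
      obtain ⟨g, hg, rfl⟩ := c3 x h0 (hx.le.trans (c2 _ b1).2)
      by_cases hm : ctr i ∈ g
      · exact ⟨Sum.inl g, by simpa using hg, ⟨_, Sym2.mem_map.mpr ⟨_, hm, rfl⟩, b4⟩, rfl⟩
      · refine ⟨Sum.inr (ctr i, g), ?_, ⟨_, by simp [ed], b4⟩, rfl⟩
        simp only [inr_mem_disjSum, P, mem_filter, mem_product]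
        refine ⟨⟨b2, hg⟩, lt_of_le_of_ne ((c4 g hg _ b1 hx).trans b3) fun e => hm ?_, hm⟩
        exact hr (ha g hg).2 b2 e ▸ (ha g hg).1)
  have edi : Function.Injective ed := by
    rintro (e | p) (e' | p') h <;> simp only [ed, Sum.elim_inl, Sum.elim_inr] at h
    · rw [Sym2.map.injective Sum.inl_injective h]
    · have : Sum.inr p' ∈ e.map (Sum.inl : V → V ⊕ V × Sym2 V) := h ▸ by simp
      simp at this
    · have : Sum.inr p ∈ e'.map (Sum.inl : V → V ⊕ V × Sym2 V) := h ▸ by simp
      simp at this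
    · simp only [Sym2.eq_iff, Sum.inl.injEq, Sum.inr.injEq, reduceCtorEq, and_self, or_false] at h
      rw [h.2]
  refine ⟨l.map ed, ⟨l1.map edi, ?_⟩, ⟨Sum.inl, c, Sum.inl_injective, by simpa using c1, ?_⟩, ?_⟩
  · intro e he
    obtain ⟨i, hi, rfl⟩ := List.mem_map.mp he
    have hi' : i ∈ H.edgeFinset.disjSum P := l2 ▸ List.mem_toFinset.mpr hi
    rcases i with e | p
    · have he : e ∈ H.edgeSet := by simpa using hi'
      simp only [ed, Sum.elim_inl]
      rw [Sym2.isDiag_map Sum.inl_injective]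
      exact H.not_isDiag_of_mem_edgeSet he
    · simp [ed]
  · intro e he
    rw [l3]
    refine List.mem_map.mpr ⟨Sum.inl e, List.mem_toFinset.mp ?_, rfl⟩
    rw [l2]; simpa using he
  · rw [List.length_map, ← List.toFinset_card_of_nodup l1, l2, card_disjSum, sum_add_distrib,
      ← card_eq_sum_ones]
    refine Nat.add_le_add_left ?_ _
    calc P.card ≤ ((C ×ˢ H.edgeFinset).filter fun p => r (asg p.2) < r p.1).card :=
          card_le_card fun p hp => by
            simp only [P, mem_filter] at hp ⊢; exact ⟨hp.1, hp.2.1⟩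
      _ = _ := by
        rw [card_filter, sum_product_right]
        exact sum_congr rfl fun e _ => (card_filter _ _).symm

/-- Builder can force a rainbow copy of `H` against First-Fit within `(τ + 1) k / 2` edges. -/
theorem result (V : Type) [Finite V] (H : SimpleGraph V) :
    ∃ (W : Type) (L : List (Sym2 W)), Valid L ∧ HasRainbow H L ∧
      2 * (L.length : ℕ∞) ≤ (H.vertexCoverNum + 1) * H.edgeSet.encard := by
  classical
  haveI := Fintype.ofFinite V
  obtain ⟨C, hC, hc⟩ := H.vertexCoverNum_exists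
  lift C to Finset V using Set.toFinite C
  by_cases hV : Nonempty V
  swap
  · refine ⟨V, [], ⟨by simp, by simp⟩, ⟨id, fun _ => 0, Function.injective_id, ?_, ?_⟩, by simp⟩ <;>
      intro e <;> induction e using Sym2.ind with | _ a b => exact absurd ⟨a⟩ hV
  have : ∀ e ∈ H.edgeFinset, ∃ v, v ∈ e ∧ v ∈ C := by
    intro e he
    induction e using Sym2.ind with
    | _ a b =>
      rcases hc (show H.Adj a b by simpa using he) with h | h
      exacts [⟨a, by simp, h⟩, ⟨b, by simp, h⟩]
  choose! asg ha using this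
  let r : V → ℕ := fun v => Fintype.equivFin V v
  have hr : Function.Injective r := Fin.val_injective.comp (Fintype.equivFin V).injective
  have hlt : ∀ v, r v < Fintype.card V := fun v => (Fintype.equivFin V v).2
  obtain ⟨L1, a1, a2, a3⟩ := build H C asg ha r hr.injOn
  obtain ⟨L2, b1, b2, b3⟩ := build H C asg ha (fun v => Fintype.card V - r v) (by
    intro x _ y _ e
    have := hlt x
    have := hlt y
    exact hr (by simp only at e; omega))
  have tot : L1.length + L2.length ≤ (C.card + 1) * H.edgeFinset.card := by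
    refine (add_le_add a3 b3).trans ?_
    rw [← sum_add_distrib, mul_comm, ← smul_eq_mul, ← sum_const]
    refine sum_le_sum fun e he => ?_
    have h1 : (C.filter fun v => r (asg e) < r v).card +
        (C.filter fun v => Fintype.card V - r (asg e) < Fintype.card V - r v).card ≤
        (C.erase (asg e)).card := by
      rw [← card_union_of_disjoint]
      · refine card_le_card fun v hv => ?_
        simp only [mem_union, mem_filter, mem_erase] at hv ⊢
        rcases hv with h | h <;> exact ⟨by rintro rfl; omega, h.1⟩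
      · refine disjoint_left.mpr fun v h1 h2 => ?_
        have := (mem_filter.mp h1).2
        have := (mem_filter.mp h2).2
        omega
    have h2 := card_erase_add_one (ha e he).2
    omega
  rw [← hC, ← H.coe_edgeFinset, Set.encard_coe_eq_coe_finsetCard, Set.encard_coe_eq_coe_finsetCard]
  rcases le_total L1.length L2.length with h | h
  · exact ⟨_, L1, a1, a2, by exact_mod_cast (by omega : 2 * L1.length ≤ _)⟩
  · exact ⟨_, L2, b1, b2, by exact_mod_cast (by omega : 2 * L2.length ≤ _)⟩

end Pool.Agent.Results.MP_071c0d_co.HalfBound
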